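import Pool.Agent.helper43.TF.Fin

/-!
# A flexible tight closed polyhedral surface in Euclidean 3-space

Kalai (1987) asked whether all tight closed polyhedral surfaces in Euclidean 3-space are rigid.
The surface constructed here (29 vertices, 99 edges, 66 triangles, orientable, genus 3) is tight
and flexible.
-/

namespace Pool.Agent.Results.MP_5b8da6_gt.TightFlexible

open Pool.Agent.helper45.TF

/-- There is a tight closed polyhedral surface in Euclidean 3-space that is not rigid. -/
theorem result : ∃ (S : ClosedSurface (Fin 29)) (p : Fin 29 → E3),
    IsPolyhedralImmersion S p ∧ Tight S p ∧ ¬ Rigid S p ∧ S.Orientable ∧ S.faces.card = 66 :=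
  Pool.Agent.helper43.TF.Final.tight_flexible

end Pool.Agent.Results.MP_5b8da6_gt.TightFlexible
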